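import Pool.Agent.V11243.WMain

/-!
# The totalizing jump does not distribute over the meet of incomparable problems

For all Weihrauch-incomparable problems `f` and `g`, the totalizing jump of the meet of `f` and
`g` lies strictly below the meet of the totalizing jumps of `f` and `g`.
-/

namespace Pool.Agent.Results.MP_1d3aa8_lc.NotDistributive

open Pool.Agent.H190R3.Wei Pool.Agent.V11243.WUniv

/-- exchange the halves of a paired word -/
def sw (σ : List ℕ) : List ℕ := pr (od σ) (ev σ)

theorem isMachine_sw : IsMachine sw := isMachine_od.pr isMachine_ev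

theorem maps_sw (p : ℕ → ℕ) : Maps sw p (pair (right p) (left p)) := by
  have h1 := maps_od (left p) (right p)
  have h2 := maps_ev (left p) (right p)
  rw [pair_left_right] at h1 h2
  exact Maps.pr isMachine_od isMachine_ev h1 h2

theorem fl_prim : Primrec (fun σ : List ℕ => 1 - σ.getD 0 0) :=
  Primrec.nat_sub.comp (Primrec.const 1) ((Primrec.list_getD 0).comp Primrec.id (Primrec.const 0))

theorem fl_stable (a b : List ℕ) (h : a <+: b) (h1 : 1 ≤ a.length) :
    1 - a.getD 0 0 = 1 - b.getD 0 0 := by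
  rw [getD_of_isPrefix h 0 0 (by omega)]

/-- exchange the tags `0` and `1` -/
def flM : List ℕ → List ℕ := consM (alp 1 (fun σ => 1 - σ.getD 0 0)) (dp 1)

theorem isMachine_flM : IsMachine flM :=
  isMachine_consM (isMachine_alp fl_prim fl_stable) (isMachine_dp 1)

theorem maps_flM (b : ℕ) (w : ℕ → ℕ) : Maps flM (tag b w) (tag (1 - b) w) := by
  have := maps_cons_alp fl_prim fl_stable (isMachine_dp 1) (maps_dp_tag b w)
  rw [init_getD _ _ _ _ (by omega)] at this
  exact this

theorem main {f g h' : Problem} (hK : WLe (meet (tot (uni f)) (tot (uni g))) (tot h'))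
    (hh : WLe h' (meet f g)) : WLe f g ∨ WLe g f := by
  obtain ⟨Φ, Ψ, hΦ, hΨ, r1⟩ := hK
  obtain ⟨A, B, hA, hB, r2⟩ := id hh
  have hne : ∀ q1 q2, ((meet (tot (uni f)) (tot (uni g))).sol (pair q1 q2)).Nonempty := by
    intro q1 q2
    obtain ⟨w, hw⟩ := tot_nonempty (uni f) q1
    exact ⟨tag 0 w, (mem_meet (tot_nonempty (uni f) q1) (tot_nonempty (uni g) q2)).2
      (Or.inl ⟨w, hw, rfl⟩)⟩
  have hZ : (fun _ => 0 : ℕ → ℕ) = pair (right fun _ => 0) (left fun _ => 0) := by
    funext n; simp [pair, left, right]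
  have hneZ := hne (right fun _ => 0) (left fun _ => 0)
  rw [← hZ] at hneZ
  obtain ⟨q0, hq0, ⟨r0, hr0⟩, hr⟩ := r1 _ hneZ
  obtain ⟨v0, hv0, hv0'⟩ := hr r0 hr0
  have hv1 := hv0
  rw [hZ] at hv1
  rcases (mem_meet (tot_nonempty (uni f) _) (tot_nonempty (uni g) _)).1 hv1 with
    ⟨w, hw, rfl⟩ | ⟨w, hw, rfl⟩
  · exact Or.inl (half hΦ hΨ hA hB r1 r2 hv0' (by simp [tag]))
  · right
    have hh2 : WLe h' (meet g f) :=
      hh.trans (le_meet (meet_le_right f g) (meet_le_left f g))
    obtain ⟨A', B', hA', hB', r2'⟩ := hh2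
    have m1 : IsMachine (fun σ => pr (sw (ev σ)) (od σ)) :=
      (isMachine_sw.comp' isMachine_ev).pr isMachine_od
    have hm1 : ∀ p r : ℕ → ℕ, Maps (fun σ => pr (sw (ev σ)) (od σ)) (pair p r)
        (pair (pair (right p) (left p)) r) := fun p r =>
      Maps.pr (isMachine_sw.comp' isMachine_ev) isMachine_od
        (Maps.comp isMachine_sw (maps_ev p r) (maps_sw p)) (maps_od p r)
    have mΨ' : IsMachine (fun σ => flM (Ψ (pr (sw (ev σ)) (od σ)))) :=
      isMachine_flM.comp' (hΨ.comp' m1)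
    have r1' : Red (fun σ => Φ (sw σ)) (fun σ => flM (Ψ (pr (sw (ev σ)) (od σ))))
        (meet (tot (uni g)) (tot (uni f))) (tot h') := by
      intro p _
      obtain ⟨q, hq, hqne, hr⟩ := r1 _ (hne (right p) (left p))
      refine ⟨q, Maps.comp hΦ (maps_sw p) hq, hqne, fun r hr' => ?_⟩
      obtain ⟨v, hv, hv'⟩ := hr r hr'
      have hcomp := Maps.comp hΨ (hm1 p r) hv'
      rw [show (meet (tot (uni g)) (tot (uni f))).sol p =
        (meet (tot (uni g)) (tot (uni f))).sol (pair (left p) (right p)) by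
          rw [pair_left_right]]
      rcases (mem_meet (tot_nonempty (uni f) _) (tot_nonempty (uni g) _)).1 hv with
        ⟨w, hw, rfl⟩ | ⟨w, hw, rfl⟩
      · exact ⟨tag 1 w, (mem_meet (tot_nonempty (uni g) _) (tot_nonempty (uni f) _)).2
          (Or.inr ⟨w, hw, rfl⟩), Maps.comp isMachine_flM hcomp (maps_flM 0 w)⟩
      · exact ⟨tag 0 w, (mem_meet (tot_nonempty (uni g) _) (tot_nonempty (uni f) _)).2
          (Or.inl ⟨w, hw, rfl⟩), Maps.comp isMachine_flM hcomp (maps_flM 1 w)⟩
    have hv2 : Maps (fun σ => flM (Ψ (pr (sw (ev σ)) (od σ)))) (pair (fun _ => 0) r0)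
        (tag 0 w) := by
      have h1 := hm1 (fun _ => 0) r0
      rw [← hZ] at h1
      exact Maps.comp isMachine_flM (Maps.comp hΨ h1 hv0') (maps_flM 1 w)
    exact half (hΦ.comp' isMachine_sw) mΨ' hA' hB' r1' r2' hv2 (by simp [tag])

/-- Totalizing jumps exist, and for all Weihrauch-incomparable problems `f` and `g` the
totalizing jump of the meet of `f` and `g` is strictly below the meet of the totalizing jumps. -/
theorem result : (∀ f : Problem, ∃ F, IsTJ f F) ∧
    ∀ f g F G H : Problem, ¬ WLe f g → ¬ WLe g f → IsTJ f F → IsTJ g G → IsTJ (meet f g) H →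
      WLe H (meet F G) ∧ ¬ WLe (meet F G) H := by
  refine ⟨fun f => ⟨_, isTJ_uni f⟩, fun f g F G H hfg hgf hF hG hH => ⟨?_, fun hcon => ?_⟩⟩
  · refine le_meet ?_ ?_
    · exact (hH.equiv.1.trans (tot_le_tot_uni ((uni_le _).trans (meet_le_left f g)))).trans
        hF.equiv.2
    · exact (hH.equiv.1.trans (tot_le_tot_uni ((uni_le _).trans (meet_le_right f g)))).trans
        hG.equiv.2
  · have h1 : WLe (meet (tot (uni f)) (tot (uni g))) (tot (uni (meet f g))) :=
      ((meet_mono hF.equiv.2 hG.equiv.2).trans hcon).trans hH.equiv.1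
    rcases main h1 (uni_le (meet f g)) with h | h
    · exact hfg h
    · exact hgf h

end Pool.Agent.Results.MP_1d3aa8_lc.NotDistributive
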